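import Pool.Agent.Results.MP_8c175f_gt.LargeWeakLindelofNumber

/-!
# A countably tight almost discretely Lindelöf space that is not weakly Lindelöf

The space is a coarsening of the discretely Lindelöf space of `Pool.Agent.H960R3.DL`: the sets of
vectors of bounded rank are no longer closed, and the resulting space is countably tight (so it is
not discretely Lindelöf), while every discrete subset still lies in a Lindelöf subspace.
-/

set_option autoImplicit false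

open Set Topology Cardinal Filter

namespace Pool.Agent.Results.MP_a09c40_gt.CountablyTightNotWeakly

open Pool.Agent.H960R3.DL

variable {L : ℕ → Type} [∀ n, LinearOrder (L n)]

/-- The same point set as `Pt δ G`. -/
def Qt (δ : Ordinal.{0}) (G : Ordinal.{0} → ∀ n, L n) : Type := Pt δ G

open Classical in
instance topQ (δ : Ordinal.{0}) (G : Ordinal.{0} → ∀ n, L n) : TopologicalSpace (Qt δ G) where
  IsOpen O := ∀ p : Pt δ G, p ∈ O → ∃ (s : Finset (Σ n, L n)) (F : Finset (Pt δ G)),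
    InU s p.1.1 ∧ p ∉ F ∧ ∀ q : Pt δ G, InU s q.1.1 → q ∉ F → Re p q → q ∈ O
  isOpen_univ := fun p _ => ⟨∅, ∅, by simp [InU], by simp, fun _ _ _ _ => trivial⟩
  isOpen_inter := by
    intro O O' h h' p hp
    obtain ⟨s, F, h1, h3, h4⟩ := h p hp.1
    obtain ⟨s', F', h1', h3', h4'⟩ := h' p hp.2
    refine ⟨s ∪ s', F ∪ F', ?_, ?_, ?_⟩
    · intro a ha
      rcases Finset.mem_union.1 ha with ha | ha
      · exact h1 a ha
      · exact h1' a ha
    · simp [h3, h3']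
    · intro q hq1 hq3 hq4
      rw [Finset.mem_union, not_or] at hq3
      exact ⟨h4 q (fun a ha => hq1 a (Finset.mem_union_left _ ha)) hq3.1 hq4,
        h4' q (fun a ha => hq1 a (Finset.mem_union_right _ ha)) hq3.2 hq4⟩
  isOpen_sUnion := by
    intro S hS p hp
    obtain ⟨O, hO, hpO⟩ := hp
    obtain ⟨s, F, h1, h3, h4⟩ := hS O hO p hpO
    exact ⟨s, F, h1, h3, fun q a c d => ⟨O, hO, h4 q a c d⟩⟩

variable {δ : Ordinal.{0}} {G : Ordinal.{0} → ∀ n, L n}

theorem isOpen_iffQ {O : Set (Qt δ G)} : IsOpen O ↔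
    ∀ p : Pt δ G, p ∈ O → ∃ (s : Finset (Σ n, L n)) (F : Finset (Pt δ G)),
    InU s p.1.1 ∧ p ∉ F ∧ ∀ q : Pt δ G, InU s q.1.1 → q ∉ F → Re p q → q ∈ O := Iff.rfl

/-- The identity map. -/
def toQ (p : Pt δ G) : Qt δ G := p

theorem continuous_toQ : Continuous (toQ : Pt δ G → Qt δ G) := by
  refine ⟨fun O hO => ?_⟩
  rw [isOpen_iff']
  intro p hp
  obtain ⟨s, F, h1, h2, h3⟩ := isOpen_iffQ.1 hO p hp
  exact ⟨s, ∅, F, h1, by simp [InW], h2, fun q a _ c d => h3 q a c d⟩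

instance t1Q : T1Space (Qt δ G) := by
  refine ⟨fun p => ⟨?_⟩⟩
  rw [isOpen_iffQ]
  intro q hq
  refine ⟨∅, {(p : Pt δ G)}, by simp [InU], fun h => hq (Finset.mem_singleton.1 h), ?_⟩
  intro r _ hr _ h
  exact hr (Finset.mem_singleton.2 h)

theorem isOpen_UQ (n : ℕ) (a : L n) :
    IsOpen ({p : Pt δ G | p.1.1 n < (a : WithTop (L n))} : Set (Qt δ G)) := by
  rw [isOpen_iffQ]
  intro p hp
  refine ⟨{⟨n, a⟩}, ∅, ?_, by simp, ?_⟩
  · intro c hc
    rw [Finset.mem_singleton] at hc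
    subst hc
    exact hp
  · intro q hq _ _
    exact hq ⟨n, a⟩ (by simp)

theorem isOpen_upQ (x : {x : Vec L // ∃ ξ < δ, Lo G ξ x}) :
    IsOpen ({p : Pt δ G | p.2 = true ∧ ∀ n, x.1 n ≤ p.1.1 n} : Set (Qt δ G)) := by
  rw [isOpen_iffQ]
  intro p hp
  refine ⟨∅, ∅, by simp [InU], by simp, ?_⟩
  intro q _ _ hR
  obtain ⟨h1, h2⟩ := hR hp.1
  exact ⟨h1, fun n => (hp.2 n).trans (h2 n)⟩

/-- The `k`-th neighbourhood of `p`. -/
def Nb (k : ℕ) (p : Pt δ G) : Set (Pt δ G) := {q | (∀ n < k, q.1.1 n ≤ p.1.1 n) ∧ Re p q}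

theorem exists_Nb {p : Pt δ G} {O : Set (Qt δ G)} (hO : IsOpen O) (hp : toQ p ∈ O) :
    ∃ (k : ℕ) (F : Finset (Pt δ G)), p ∉ F ∧ ∀ q ∈ Nb k p, q ∉ F → toQ q ∈ O := by
  obtain ⟨s, F, h1, h2, h3⟩ := isOpen_iffQ.1 hO p hp
  refine ⟨(s.sup Sigma.fst) + 1, F, h2, fun q hq hqF => h3 q ?_ hqF hq.2⟩
  intro a ha
  exact (hq.1 a.1 (Nat.lt_succ_of_le (Finset.le_sup (f := Sigma.fst) ha))).trans_lt (h1 a ha)

theorem Re_trans {p q r : Pt δ G} (h : Re p q) (h' : Re q r) : Re p r := fun hp =>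
  ⟨(h' (h hp).1).1, fun n => ((h hp).2 n).trans ((h' (h hp).1).2 n)⟩

theorem isOpen_Nb [∀ n, WellFoundedLT (L n)] (hmax : ∀ n, NoMaxOrder (L n)) (k : ℕ)
    (p : Pt δ G) (F : Finset (Pt δ G)) (hF : p ∉ F) :
    ∃ O : Set (Qt δ G), IsOpen O ∧ toQ p ∈ O ∧ ∀ q : Pt δ G, toQ q ∈ O → q ∉ F ∧ q ∈ Nb k p := by
  classical
  have h1 : ∀ n, ∃ s : Finset (Σ n, L n), InU s p.1.1 ∧ ∀ q : Pt δ G, InU s q.1.1 →
      q.1.1 n ≤ p.1.1 n := by
    intro n
    by_cases htop : p.1.1 n = ⊤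
    · exact ⟨∅, by simp [InU], fun q _ => by rw [htop]; exact le_top⟩
    · obtain ⟨b, hb⟩ := WithTop.ne_top_iff_exists.1 htop
      let T : Set (L n) := {a | b < a}
      have hT : T.Nonempty := by
        have := hmax n
        exact exists_gt b
      have hm := WellFounded.min_mem (wellFounded_lt (α := L n)) T hT
      refine ⟨{⟨n, WellFounded.min (wellFounded_lt (α := L n)) T hT⟩}, ?_, ?_⟩
      · intro c hc
        rw [Finset.mem_singleton] at hc
        subst hc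
        rw [← hb]
        exact WithTop.coe_lt_coe.2 hm
      · intro q hq
        have h2 := hq ⟨n, WellFounded.min (wellFounded_lt (α := L n)) T hT⟩ (by simp)
        rw [← hb]
        by_contra h3
        rw [not_le] at h3
        obtain ⟨c, hc⟩ := WithTop.ne_top_iff_exists.1 (ne_top_of_lt h2)
        simp only at h2
        rw [← hc] at h2 h3
        exact WellFounded.not_lt_min (wellFounded_lt (α := L n)) T (WithTop.coe_lt_coe.1 h3)
          (WithTop.coe_lt_coe.1 h2)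
  choose s hs hs' using h1
  refine ⟨{q : Pt δ G | InU ((Finset.range k).biUnion s) q.1.1 ∧ q ∉ F ∧ Re p q}, ?_,
    ⟨?_, hF, Re.refl p⟩, ?_⟩
  · rw [isOpen_iffQ]
    intro q hq
    exact ⟨(Finset.range k).biUnion s, F, hq.1, hq.2.1,
      fun r h2 h3 h4 => ⟨h2, h3, Re_trans hq.2.2 h4⟩⟩
  · intro a ha
    obtain ⟨n, -, hn⟩ := Finset.mem_biUnion.1 ha
    exact hs n a hn
  · intro q hq
    refine ⟨hq.2.1, fun n hn => hs' n q fun a ha => hq.1 a ?_, hq.2.2⟩
    exact Finset.mem_biUnion.2 ⟨n, Finset.mem_range.2 hn, ha⟩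

theorem tight [∀ n, WellFoundedLT (L n)] (hmax : ∀ n, NoMaxOrder (L n)) (A : Set (Qt δ G))
    (p : Qt δ G) (hp : p ∈ closure A) : ∃ B ⊆ A, B.Countable ∧ p ∈ closure B := by
  classical
  by_cases hpA : p ∈ A
  · exact ⟨{p}, by simpa using hpA, countable_singleton _, subset_closure (mem_singleton p)⟩
  have h1 : ∀ k, ((Nb k (p : Pt δ G) : Set (Pt δ G)) ∩ (A : Set (Pt δ G))).Infinite := by
    intro k hfin
    obtain ⟨O, hO, hpO, hOs⟩ := isOpen_Nb (G := G) (δ := δ) hmax k (p : Pt δ G)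
      hfin.toFinset (by
        intro h
        rw [Set.Finite.mem_toFinset] at h
        exact hpA h.2)
    obtain ⟨q, hqO, hqA⟩ := mem_closure_iff.1 hp O hO hpO
    obtain ⟨h2, h3⟩ := hOs q hqO
    apply h2
    rw [Set.Finite.mem_toFinset]
    exact ⟨h3, hqA⟩
  let e : ∀ k, ℕ → Pt δ G := fun k m => (h1 k).natEmbedding _ m
  have he : ∀ k m, e k m ∈ Nb k (p : Pt δ G) ∧ e k m ∈ (A : Set (Pt δ G)) := fun k m =>
    ((h1 k).natEmbedding _ m).2
  have hei : ∀ k, Function.Injective (e k) := fun k a b hab =>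
    ((h1 k).natEmbedding _).injective (Subtype.ext hab)
  refine ⟨⋃ k, range (e k), ?_, countable_iUnion fun k => countable_range _, ?_⟩
  · refine iUnion_subset fun k => ?_
    rintro _ ⟨m, rfl⟩
    exact (he k m).2
  · rw [mem_closure_iff]
    intro O hO hpO
    obtain ⟨k, F, hF, hq⟩ := exists_Nb hO hpO
    obtain ⟨m, hm⟩ : ∃ m, e k m ∉ F := by
      by_contra h
      push Not at h
      have h2 : (range (e k)) ⊆ (F : Set (Pt δ G)) := by
        rintro _ ⟨m, rfl⟩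
        exact h m
      exact (infinite_range_of_injective (hei k)) ((Finset.finite_toSet F).subset h2)
    exact ⟨e k m, hq _ (he k m).1 hm, mem_iUnion.2 ⟨k, m, rfl⟩⟩

/-- For every infinite cardinal `μ` there is a countably tight `T₁` space `X` such that every
union of at most `μ` discrete subsets of `X` (in particular every discrete subset, so that `X` is
almost discretely Lindelöf) is contained in a Lindelöf subspace, while some open cover of `X` has no
subfamily of cardinality at most `μ` with a dense union (in particular `X` is not weakly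
Lindelöf). -/
theorem result (μ : Cardinal.{0}) (_hμ : ℵ₀ ≤ μ) :
    ∃ (X : Type) (_ : TopologicalSpace X), T1Space X ∧
      (∀ (A : Set X) (x : X), x ∈ closure A → ∃ B ⊆ A, B.Countable ∧ x ∈ closure B) ∧
      (∀ D : Set X, DiscreteTopology D → ∃ K : Set X, D ⊆ K ∧ IsLindelof K) ∧
      (∀ 𝒟 : Set (Set X), #𝒟 ≤ μ → (∀ D ∈ 𝒟, DiscreteTopology D) →
        ∃ K : Set X, ⋃₀ 𝒟 ⊆ K ∧ IsLindelof K) ∧
      (∃ 𝒰 : Set (Set X), (∀ U ∈ 𝒰, IsOpen U) ∧ ⋃₀ 𝒰 = Set.univ ∧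
        ∀ 𝒱 ⊆ 𝒰, #𝒱 ≤ μ → ¬ Dense (⋃₀ 𝒱)) := by
  classical
  obtain ⟨L, i1, i2, hL, hLμ⟩ :=
    Pool.Agent.Results.MP_8c175f_gt.LargeWeakLindelofNumber.exists_L' μ
  obtain ⟨δ, G, hG, hU⟩ := exists_G hL
  have hmax : ∀ n, NoMaxOrder (L n) := fun n => ⟨fun a => by
    obtain ⟨b, hb⟩ := hL n {a} (Or.inl (by
      rw [mk_singleton]
      exact one_lt_aleph0.le.trans aleph0_le_continuum))
    exact ⟨b, hb a rfl⟩⟩
  have hdisc : ∀ D : Set (Qt δ G), DiscreteTopology D →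
      ∃ ξ < δ, (D : Set (Pt δ G)) ⊆ {p : Pt δ G | Lo G ξ p.1.1} := by
    intro D hD
    have hD' : DiscreteTopology ((toQ ⁻¹' D : Set (Pt δ G)) : Set (Pt δ G)) := by
      let f : (toQ ⁻¹' D : Set (Pt δ G)) → D := fun x => ⟨toQ x.1, x.2⟩
      have hf : Continuous f := (continuous_toQ.comp continuous_subtype_val).subtype_mk _
      refine DiscreteTopology.of_continuous_injective hf ?_
      intro x y hxy
      exact Subtype.ext (congrArg Subtype.val hxy)
    exact bounded_of_discrete hL hG hU (toQ ⁻¹' D) hD'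
  have hLind : ∀ ξ < δ, IsLindelof ({p : Pt δ G | Lo G ξ p.1.1} : Set (Qt δ G)) := by
    intro ξ hξ
    have h := (isLindelof_Lo hG hξ).image continuous_toQ
    have e : toQ '' {p : Pt δ G | Lo G ξ p.1.1} = ({p : Pt δ G | Lo G ξ p.1.1} : Set (Qt δ G)) := by
      ext x
      constructor
      · rintro ⟨y, hy, rfl⟩
        exact hy
      · intro hx
        exact ⟨x, hx, rfl⟩
    rwa [e] at h
  refine ⟨Qt δ G, inferInstance, inferInstance, fun A x hx => tight hmax A x hx, ?_, ?_, ?_⟩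
  · intro D hD
    obtain ⟨ξ, hξ, hDξ⟩ := hdisc D hD
    exact ⟨_, hDξ, hLind ξ hξ⟩
  · intro 𝒟 h𝒟 hd
    have h1 : ∀ D : 𝒟, ∃ ξ < δ, (D.1 : Set (Pt δ G)) ⊆ {p : Pt δ G | Lo G ξ p.1.1} := fun D =>
      hdisc D.1 (hd D.1 D.2)
    choose ρ hρ hDρ using h1
    have hSm : Sm L 𝒟 := by
      intro f
      have h2 : ∀ n, ∃ b, ∀ a ∈ range (fun t => f t n), a < b := fun n =>
        hLμ n _ (mk_range_le.trans h𝒟)
      choose h hh using h2
      exact ⟨h, fun t => Eventually.of_forall fun n => hh n _ ⟨t, rfl⟩⟩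
    obtain ⟨ρ', hρ', hle⟩ := small_bdd hG hU hSm ρ hρ
    refine ⟨_, ?_, hLind ρ' hρ'⟩
    rintro p ⟨D, hD, hp⟩
    exact Lo.mono hG (hle ⟨D, hD⟩) hρ' (hDρ ⟨D, hD⟩ hp)
  · let U : (Σ n, L n) → Set (Qt δ G) := fun a =>
      ({p : Pt δ G | p.1.1 a.1 < (a.2 : WithTop (L a.1))} : Set (Qt δ G))
    refine ⟨range U, ?_, ?_, ?_⟩
    · rintro _ ⟨a, rfl⟩
      exact isOpen_UQ a.1 a.2
    · refine eq_univ_of_forall fun p => ?_
      obtain ⟨ξ, hξ, hlo⟩ := (p : Pt δ G).1.2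
      obtain ⟨n, hn⟩ := hlo.exists
      obtain ⟨b, hb⟩ := hL n {G ξ n} (Or.inl (by
        rw [mk_singleton]
        exact one_lt_aleph0.le.trans aleph0_le_continuum))
      refine ⟨U ⟨n, b⟩, ⟨_, rfl⟩, ?_⟩
      exact hn.trans_lt (WithTop.coe_lt_coe.2 (hb _ rfl))
    · intro V hV hVc hdense
      have hV4 : ∀ v : V, ∃ i, U i = v.1 := fun v => hV v.2
      choose c hc using hV4
      have h1 : ∀ n, ∃ b : L n, ∀ a : L n, (⟨n, a⟩ : Σ n, L n) ∈ range c → a < b := by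
        intro n
        have hcount : #((Sigma.mk n) ⁻¹' (range c) : Set (L n)) ≤ μ :=
          (mk_preimage_of_injective _ _ sigma_mk_injective).trans (mk_range_le.trans hVc)
        exact hLμ n _ hcount
      choose h hh using h1
      obtain ⟨ξ, hξ, hf⟩ := hU h
      let A : Set ℕ := {n | h n ≤ G ξ n}
      have hA : A.Infinite := Nat.frequently_atTop_iff_infinite.1 hf
      let x : {x : Vec L // ∃ ξ < δ, Lo G ξ x} := ⟨xA G ξ A, ξ, hξ, lo_xA G ξ hA⟩
      obtain ⟨q', hq1', hq2⟩ := hdense.inter_open_nonempty _ (isOpen_upQ x)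
        ⟨toQ (x, true), rfl, fun n => le_rfl⟩
      obtain ⟨v', hv, hqv⟩ := hq2
      obtain ⟨v, rfl⟩ : ∃ v : V, v.1 = v' := ⟨⟨v', hv⟩, rfl⟩
      have h2 : U (c v) = v := hc v
      rw [← h2] at hqv
      let q : Pt δ G := q'
      have hq1 : q.2 = true ∧ ∀ n, x.1 n ≤ q.1.1 n := hq1'
      have h3 : q.1.1 (c v).1 < ((c v).2 : WithTop (L (c v).1)) := hqv
      have h4 : (c v).2 < h (c v).1 := hh _ _ ⟨v, rfl⟩
      have h5 : (h (c v).1 : WithTop (L (c v).1)) ≤ x.1 (c v).1 := by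
        change (h (c v).1 : WithTop (L (c v).1)) ≤ xA G ξ A (c v).1
        by_cases hn : (c v).1 ∈ A
        · simp only [xA, hn, if_true]
          exact WithTop.coe_le_coe.2 hn
        · simp [xA, hn]
      exact absurd ((h5.trans (hq1.2 _)).trans_lt (h3.trans (WithTop.coe_lt_coe.2 h4)))
        (lt_irrefl _)

end Pool.Agent.Results.MP_a09c40_gt.CountablyTightNotWeakly
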